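import Pool.Agent.Work.MP_376faf_co_sum.Fin

/-! The critical series of self-avoiding polygons on the square lattice, weighted by the number of
rows, and with the weight sqrt(2n). -/

set_option autoImplicit false

namespace Pool.Agent.Work.MP_376faf_co_kept.SumBound

open Filter

/-- number of n-step self-avoiding walks on Z^2 from the origin -/
noncomputable def walks (n : ℕ) : ℕ :=
  Nat.card {f : Fin (n+1) → ℤ × ℤ // f 0 = 0 ∧ Function.Injective f ∧
    ∀ i : Fin n, |(f i.succ).1 - (f i.castSucc).1| + |(f i.succ).2 - (f i.castSucc).2| = 1}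

/-- number of self-avoiding polygons of perimeter 2n on Z^2 up to translation (n at least 2):
rooted oriented ones divided by 4n -/
noncomputable def polygons (n : ℕ) : ℝ :=
  (Nat.card {f : ZMod (2*n) → ℤ × ℤ // f 0 = 0 ∧ Function.Injective f ∧
    ∀ i : ZMod (2*n), |(f (i+1)).1 - (f i).1| + |(f (i+1)).2 - (f i).2| = 1} : ℝ) / (4 * (n:ℝ))

/-- the sum of the numbers of rows (horizontal lines met by the vertices, that is, height plus
one) over the self-avoiding polygons of perimeter 2n on Z^2 up to translation (n at least 2):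
the sum over rooted oriented ones divided by 4n -/
noncomputable def rowSum (n : ℕ) : ℝ :=
  (∑ᶠ f : {f : ZMod (2*n) → ℤ × ℤ // f 0 = 0 ∧ Function.Injective f ∧
    ∀ i : ZMod (2*n), |(f (i+1)).1 - (f i).1| + |(f (i+1)).2 - (f i).2| = 1},
    (Set.ncard (Set.range fun i => (f.1 i).2) : ℝ)) / (4 * (n:ℝ))

theorem result : ∃ μ : ℝ,
    Tendsto (fun n : ℕ => ((walks n : ℕ) : ℝ) ^ ((1:ℝ) / (n:ℝ))) atTop (nhds μ) ∧
    Summable (fun n : ℕ => rowSum (n + 2) / μ ^ (2 * (n + 2))) ∧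
    ∑' n : ℕ, rowSum (n + 2) / μ ^ (2 * (n + 2)) ≤ μ ^ 2 / 2 ∧
    (∀ n : ℕ, √(2 * (n:ℝ)) * polygons n ≤ rowSum n) ∧
    Summable (fun n : ℕ => √(2 * ((n + 2 : ℕ) : ℝ)) * polygons (n + 2) / μ ^ (2 * (n + 2))) ∧
    ∑' n : ℕ, √(2 * ((n + 2 : ℕ) : ℝ)) * polygons (n + 2) / μ ^ (2 * (n + 2)) ≤ μ ^ 2 / 2 ∧
    ∀ α C : ℝ, 0 < C →
      Tendsto (fun n : ℕ => polygons n / (μ ^ (2 * n) * (n:ℝ) ^ (-α))) atTop (nhds C) →
        3 / 2 < α := by
  obtain ⟨μ, h1, h2⟩ := Pool.Agent.Work.MP_376faf_co.exists_mu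
  have hμ : Pool.Agent.Work.MP_376faf_co.IsMu μ := ⟨h1, h2⟩
  have hμ0 : 0 < μ := by linarith
  have hs : Summable (fun n : ℕ => rowSum (n + 2) / μ ^ (2 * (n + 2))) :=
    Pool.Agent.Work.MP_376faf_co_sum.rr_summable hμ
  have ht : ∑' n : ℕ, rowSum (n + 2) / μ ^ (2 * (n + 2)) ≤ μ ^ 2 / 2 :=
    Pool.Agent.Work.MP_376faf_co_sum.rr_tsum hμ
  have hle : ∀ n : ℕ, √(2 * (n:ℝ)) * polygons n ≤ rowSum n := by
    intro n
    rcases Nat.eq_zero_or_pos n with rfl | hn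
    · simp [polygons, rowSum]
    · have hn0 : (0:ℝ) < n := by exact_mod_cast hn
      unfold polygons rowSum
      rw [mul_div_assoc']
      refine div_le_div_of_nonneg_right ?_ (by positivity)
      exact Pool.Agent.Work.MP_376faf_co_sum.sqrt_row hn
  have hle2 : ∀ n : ℕ, √(2 * ((n + 2 : ℕ) : ℝ)) * polygons (n + 2) / μ ^ (2 * (n + 2)) ≤
      rowSum (n + 2) / μ ^ (2 * (n + 2)) := by
    intro n
    have hp : (0:ℝ) ≤ μ ^ (2 * (n + 2)) := by positivity
    exact div_le_div_of_nonneg_right (hle (n + 2)) hp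
  have hnn : ∀ n : ℕ, 0 ≤ √(2 * ((n + 2 : ℕ) : ℝ)) * polygons (n + 2) / μ ^ (2 * (n + 2)) := by
    intro n
    unfold polygons
    positivity
  have hs2 := Summable.of_nonneg_of_le hnn hle2 hs
  refine ⟨μ, h2, hs, ht, hle, hs2, (hs2.tsum_le_tsum hle2 hs).trans ht, ?_⟩
  intro α C hC hlim
  have hs3 : Summable (fun n : ℕ => √(2 * (n:ℝ)) * polygons n / μ ^ (2 * n)) :=
    (summable_nat_add_iff 2).1 hs2
  have hs4 : Summable (fun n : ℕ => (n:ℝ) ^ (1 / 2 - α)) := by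
    refine Summable.of_norm_bounded_eventually_nat
      (g := fun n : ℕ => 2 / C * (√(2 * (n:ℝ)) * polygons n / μ ^ (2 * n))) (hs3.mul_left _) ?_
    filter_upwards [hlim.eventually (lt_mem_nhds (half_lt_self hC)), eventually_gt_atTop 0]
      with n hn hn0
    have hn1 : (0:ℝ) < n := by exact_mod_cast hn0
    have hp : (0:ℝ) < (n:ℝ) ^ (-α) := Real.rpow_pos_of_pos hn1 _
    have hm : (0:ℝ) < μ ^ (2 * n) := by positivity
    rw [lt_div_iff₀ (by positivity)] at hn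
    have h3 : C / 2 * (n:ℝ) ^ (-α) ≤ polygons n / μ ^ (2 * n) := by
      rw [le_div_iff₀ hm]
      linarith
    have h4 : (n:ℝ) ^ ((1:ℝ) / 2) ≤ √(2 * (n:ℝ)) := by
      rw [← Real.sqrt_eq_rpow]
      exact Real.sqrt_le_sqrt (by linarith)
    have h5 : (n:ℝ) ^ (1 / 2 - α) = (n:ℝ) ^ ((1:ℝ) / 2) * (n:ℝ) ^ (-α) := by
      rw [← Real.rpow_add hn1]
      congr 1
    rw [Real.norm_of_nonneg (Real.rpow_nonneg hn1.le _), h5]
    calc (n:ℝ) ^ ((1:ℝ) / 2) * (n:ℝ) ^ (-α) ≤ √(2 * (n:ℝ)) * (n:ℝ) ^ (-α) :=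
          mul_le_mul_of_nonneg_right h4 hp.le
      _ = 2 / C * (√(2 * (n:ℝ)) * (C / 2 * (n:ℝ) ^ (-α))) := by field_simp
      _ ≤ 2 / C * (√(2 * (n:ℝ)) * (polygons n / μ ^ (2 * n))) := by
          apply mul_le_mul_of_nonneg_left _ (by positivity)
          exact mul_le_mul_of_nonneg_left h3 (Real.sqrt_nonneg _)
      _ = _ := by ring
  rw [Real.summable_nat_rpow] at hs4
  linarith

end Pool.Agent.Work.MP_376faf_co_kept.SumBound
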